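import Pool.Agent.H4.FV.OddT

set_option autoImplicit false

/-! Task ODD-REL: there are no other relations. -/

namespace Pool.Agent.H596.FV

open Pool.Agent.H4.FV.Odd
open Pool.Agent.R620.VA
open Pool.Agent.R620.GG

section aux

variable {p : ℕ} [Fact p.Prime] {A : Type} [NonUnitalNonAssocRing A] [Module (ZMod p) A]

theorem smul_mul (c : ZMod p) (x y : A) : (c • x) * y = c • (x * y) := by
  obtain ⟨n, rfl⟩ := ZMod.natCast_zmod_surjective c
  rw [Nat.cast_smul_eq_nsmul, Nat.cast_smul_eq_nsmul, smul_mul_assoc]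

theorem mul_smul' (c : ZMod p) (x y : A) : x * (c • y) = c • (x * y) := by
  obtain ⟨n, rfl⟩ := ZMod.natCast_zmod_surjective c
  rw [Nat.cast_smul_eq_nsmul, Nat.cast_smul_eq_nsmul, mul_smul_comm]

theorem ct_zero : Ct (0 : A) := fun x => zero_mul x

theorem ct_add {x y : A} (hx : Ct x) (hy : Ct y) : Ct (x + y) := fun w => by
  rw [add_mul, hx w, hy w, add_zero]

theorem ct_sub {x y : A} (hx : Ct x) (hy : Ct y) : Ct (x - y) := fun w => by
  rw [sub_mul, hx w, hy w, sub_zero]

theorem ct_smul (c : ZMod p) {x : A} (hx : Ct x) : Ct (c • x) := fun w => by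
  rw [smul_mul, hx w, smul_zero]

theorem ct_sum {J : Type} (t : Finset J) (f : J → A) (h : ∀ j ∈ t, Ct (f j)) :
    Ct (∑ j ∈ t, f j) := fun w => by
  rw [Finset.sum_mul]
  exact Finset.sum_eq_zero fun j hj => h j hj w

/-- the bilinear form of a matrix supported by an indexed set -/
theorem bil_eq {B J : Type} [Fintype J] (s : B → A) (M : (B × B) →₀ ZMod p) (g : J → B)
    (hg : Function.Injective g)
    (hM : ∀ b b', M (b, b') ≠ 0 → (∃ i, g i = b) ∧ ∃ i, g i = b') :
    bil p s M = ∑ i, ∑ j, M (g i, g j) • (s (g i) * s (g j)) := by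
  classical
  have hgg : Function.Injective (fun q : J × J => (g q.1, g q.2)) := by
    rintro ⟨a, b⟩ ⟨c, d⟩ h
    simp only [Prod.mk.injEq] at h
    exact Prod.ext (hg h.1) (hg h.2)
  unfold bil
  rw [Finsupp.sum_of_support_subset M
    (s := (Finset.univ : Finset (J × J)).map ⟨fun q => (g q.1, g q.2), hgg⟩)]
  · rw [Finset.sum_map, Fintype.sum_prod_type]
    rfl
  · rintro ⟨b, b'⟩ h
    rw [Finsupp.mem_support_iff] at h
    obtain ⟨⟨i, hi⟩, j, hj⟩ := hM b b' h
    rw [Finset.mem_map]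
    exact ⟨(i, j), Finset.mem_univ _, by rw [← hi, ← hj]; rfl⟩
  · intro q _
    exact zero_smul _ _

/-- vectors supported by a finite set -/
noncomputable def ex {B : Type} {F : Finset B} (c : F → ZMod p) : B →₀ ZMod p :=
  Finsupp.mapDomain Subtype.val (Finsupp.equivFunOnFinite.symm c)

theorem ex_apply {B : Type} {F : Finset B} (c : F → ZMod p) (b : F) : ex c b.1 = c b := by
  unfold ex
  rw [Finsupp.mapDomain_apply Subtype.val_injective]
  rfl

theorem lin_ex {B : Type} {F : Finset B} (s : B → A) (c : F → ZMod p) :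
    Finsupp.linearCombination (ZMod p) s (ex c) = ∑ b : F, c b • s b.1 := by
  unfold ex
  rw [Finsupp.linearCombination_mapDomain, Finsupp.linearCombination_apply]
  exact Finsupp.sum_fintype _ _ fun i => zero_smul _ _

end aux

theorem rel (h1 : S_fac) (h2 : S_loose) : S_rel := by
  intro p _ hp A _ _ V E D1 ρ s hAlt hA hR hG M hMa hM0 hbil
  classical
  by_contra hne
  -- the finite set of the indices
  set F : Finset (Bx V E D1) := M.support.image Prod.fst ∪ M.support.image Prod.snd with hF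
  have hMF : ∀ b b', M (b, b') ≠ 0 → b ∈ F ∧ b' ∈ F := by
    intro b b' h
    have h3 : (b, b') ∈ M.support := Finsupp.mem_support_iff.mpr h
    exact ⟨Finset.mem_union_left _ (Finset.mem_image_of_mem Prod.fst h3),
      Finset.mem_union_right _ (Finset.mem_image_of_mem Prod.snd h3)⟩
  obtain ⟨r, U, C, hC, hdet, hU, hMU⟩ := h1 p hp F (fun i j => M (i.1, j.1))
    ⟨fun i => hMa.1 i.1, fun i j => hMa.2 i.1 j.1⟩
  set u : Fin r → A := fun k => ∑ b : F, U k b • s b.1 with hu
  have hulin : ∀ k, u k = Finsupp.linearCombination (ZMod p) s (ex (U k)) := fun k =>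
    (lin_ex s (U k)).symm
  -- independence
  have hind : IndA p u := by
    intro c hc hct
    have h3 : lcA p u c = Finsupp.linearCombination (ZMod p) s (∑ k, c k • ex (U k)) := by
      unfold lcA
      rw [map_sum]
      refine Finset.sum_congr rfl fun k _ => ?_
      rw [map_smul, hulin k]
    rw [h3] at hct
    have h4 := hG.ind _ hct
    have h5 : ∑ k, c k • U k = 0 := by
      funext b
      have h6 := DFunLike.congr_fun h4 b.1
      rw [Finsupp.finsetSum_apply] at h6
      simp only [Finsupp.smul_apply, ex_apply, Finsupp.coe_zero, Pi.zero_apply] at h6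
      rw [Finset.sum_apply]
      simp only [Pi.smul_apply, Pi.zero_apply]
      exact h6
    obtain ⟨i, hi⟩ := hc
    exact hi (Fintype.linearIndependent_iff.mp hU c h5 i)
  -- the relation
  have hbl : blA p u C = 0 := by
    rw [← hbil, bil_eq s M (fun b : F => b.1) Subtype.val_injective (fun b b' h =>
      ⟨⟨⟨b, (hMF b b' h).1⟩, rfl⟩, ⟨⟨b', (hMF b b' h).2⟩, rfl⟩⟩)]
    have h3 : ∀ i j : F, M (i.1, j.1) • (s i.1 * s j.1) =
        ∑ k, ∑ l, (C k l * U k i * U l j) • (s i.1 * s j.1) := by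
      intro i j
      rw [hMU i j, Finset.sum_smul]
      exact Finset.sum_congr rfl fun k _ => Finset.sum_smul
    have h4 : ∀ k l, C k l • (u k * u l) =
        ∑ i : F, ∑ j : F, (C k l * U k i * U l j) • (s i.1 * s j.1) := by
      intro k l
      rw [hu, Finset.sum_mul_sum, Finset.smul_sum]
      refine Finset.sum_congr rfl fun i _ => ?_
      rw [Finset.smul_sum]
      refine Finset.sum_congr rfl fun j _ => ?_
      rw [smul_mul, mul_smul', smul_smul, smul_smul, mul_assoc]
    unfold blA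
    simp only [h3, h4]
    -- exchange the sums
    calc ∑ k, ∑ l, ∑ i : F, ∑ j : F, (C k l * U k i * U l j) • (s i.1 * s j.1)
        = ∑ k, ∑ i : F, ∑ l, ∑ j : F, (C k l * U k i * U l j) • (s i.1 * s j.1) :=
          Finset.sum_congr rfl fun k _ => Finset.sum_comm
      _ = ∑ i : F, ∑ k, ∑ l, ∑ j : F, (C k l * U k i * U l j) • (s i.1 * s j.1) :=
          Finset.sum_comm
      _ = ∑ i : F, ∑ k, ∑ j : F, ∑ l, (C k l * U k i * U l j) • (s i.1 * s j.1) :=
          Finset.sum_congr rfl fun i _ => Finset.sum_congr rfl fun k _ => Finset.sum_comm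
      _ = ∑ i : F, ∑ j : F, ∑ k, ∑ l, (C k l * U k i * U l j) • (s i.1 * s j.1) :=
          Finset.sum_congr rfl fun i _ => Finset.sum_comm
  obtain ⟨n0, m0, v, y, z, v', w', a, b, htri, hqd, hspan⟩ := hA.fin r C hC hdet u hind hbl
  obtain ⟨P, Q, hPQ, hD⟩ := h2 p hp A V E D1 ρ s hAlt hA hR hG.rep hG.tri hG.qd n0 m0 v y z
    v' w' a b htri hqd
  choose D hD1 hD2 hD3 hD4 using hD
  -- the rows are supported over `P`, `Q`
  have hrow : ∀ k, ∃ W : Bx V E D1 →₀ ZMod p, ex (U k) = W ∧ (∀ d, W (Sum.inr d) = 0) ∧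
      (∀ v j, v ∉ P → W (Sum.inl (Sum.inl (v, j))) = 0) ∧
      ∀ q j, q ∉ Q → W (Sum.inl (Sum.inr (q, j))) = 0 := by
    intro k
    obtain ⟨c, hc⟩ := hspan k
    refine ⟨- ∑ i, c i • D i, ?_, ?_, ?_, ?_⟩
    · have h3 : Ct (Finsupp.linearCombination (ZMod p) s (ex (U k) + ∑ i, c i • D i)) := by
        have h4 : Finsupp.linearCombination (ZMod p) s (ex (U k) + ∑ i, c i • D i) =
            (u k + lcA p (cf' v y z v' w' a b) c) -
              ∑ i, c i • (cf' v y z v' w' a b i - Finsupp.linearCombination (ZMod p) s (D i)) := by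
          rw [map_add, ← hulin k, map_sum]
          unfold lcA
          simp only [map_smul, smul_sub, Finset.sum_sub_distrib]
          abel
        rw [h4]
        exact ct_sub hc (ct_sum _ _ fun i _ => ct_smul _ (hD1 i))
      exact eq_neg_of_add_eq_zero_left (hG.ind _ h3)
    · intro d
      rw [Finsupp.neg_apply, Finsupp.finsetSum_apply, neg_eq_zero]
      exact Finset.sum_eq_zero fun i _ => by rw [Finsupp.smul_apply, hD2 i d, smul_zero]
    · intro v j hv
      rw [Finsupp.neg_apply, Finsupp.finsetSum_apply, neg_eq_zero]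
      exact Finset.sum_eq_zero fun i _ => by rw [Finsupp.smul_apply, hD3 i v j hv, smul_zero]
    · intro q j hq
      rw [Finsupp.neg_apply, Finsupp.finsetSum_apply, neg_eq_zero]
      exact Finset.sum_eq_zero fun i _ => by rw [Finsupp.smul_apply, hD4 i q j hq, smul_zero]
  -- the enumeration
  set eP := P.equivFin.symm with heP
  set eQ := Q.equivFin.symm with heQ
  let g : Ix P.card Q.card → Bx V E D1 := fun x => Sum.elim
    (fun x => Sum.inl (Sum.inl ((eP x.1).1, x.2))) (fun x => Sum.inl (Sum.inr ((eQ x.1).1, x.2))) x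
  have hg : Function.Injective g := by
    rintro (⟨i, j⟩ | ⟨i, j⟩) (⟨i', j'⟩ | ⟨i', j'⟩) h
    · simp only [g, Sum.elim_inl, Sum.inl.injEq, Prod.mk.injEq] at h
      rw [eP.injective (Subtype.ext h.1), h.2]
    · simp only [g, Sum.elim_inl, Sum.elim_inr, Sum.inl.injEq, reduceCtorEq] at h
    · simp only [g, Sum.elim_inl, Sum.elim_inr, Sum.inl.injEq, reduceCtorEq] at h
    · simp only [g, Sum.elim_inr, Sum.inl.injEq, Sum.inr.injEq, Prod.mk.injEq] at h
      rw [eQ.injective (Subtype.ext h.1), h.2]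
  have hrange : ∀ (k : Fin r) (b : F), U k b ≠ 0 → ∃ i, g i = b.1 := by
    intro k b hb
    obtain ⟨W, hW, hW1, hW2, hW3⟩ := hrow k
    have hWb : W b.1 ≠ 0 := by rw [← hW, ex_apply]; exact hb
    rcases hb1 : b.1 with (⟨v, j⟩ | ⟨q, j⟩) | d
    · rw [hb1] at hWb
      have hv : v ∈ P := by
        by_contra h
        exact hWb (hW2 v j h)
      exact ⟨Sum.inl (eP.symm ⟨v, hv⟩, j), by simp [g]⟩
    · rw [hb1] at hWb
      have hq : q ∈ Q := by
        by_contra h
        exact hWb (hW3 q j h)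
      exact ⟨Sum.inr (eQ.symm ⟨q, hq⟩, j), by simp [g]⟩
    · rw [hb1] at hWb
      exact absurd (hW1 d) hWb
  have hMg : ∀ b b', M (b, b') ≠ 0 → (∃ i, g i = b) ∧ ∃ i, g i = b' := by
    intro b b' h
    obtain ⟨hb, hb'⟩ := hMF b b' h
    have h3 := hMU ⟨b, hb⟩ ⟨b', hb'⟩
    simp only at h3
    rw [h3] at h
    obtain ⟨k, -, hk⟩ := Finset.exists_ne_zero_of_sum_ne_zero h
    obtain ⟨l, -, hl⟩ := Finset.exists_ne_zero_of_sum_ne_zero hk
    have h4 : U k ⟨b, hb⟩ ≠ 0 := by
      intro h0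
      apply hl
      rw [h0, mul_zero, zero_mul]
    have h5 : U l ⟨b', hb'⟩ ≠ 0 := by
      intro h0
      apply hl
      rw [h0, mul_zero]
    exact ⟨hrange k _ h4, hrange l _ h5⟩
  -- the configuration
  have hP1 : ∀ k, ((eQ k).1).1.1 ∈ P := fun k => (hPQ _ (eQ k).2).1
  have hP2 : ∀ k, ((eQ k).1).1.2 ∈ P := fun k => (hPQ _ (eQ k).2).2
  let S : Fin Q.card → Fin P.card := fun k => eP.symm ⟨_, hP1 k⟩
  let T : Fin Q.card → Fin P.card := fun k => eP.symm ⟨_, hP2 k⟩
  have hS : ∀ k, ((eP (S k)).1 : V) = (eQ k).1.1.1 := fun k => by simp [S]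
  have hT : ∀ k, ((eP (T k)).1 : V) = (eQ k).1.1.2 := fun k => by simp [T]
  have hshape : Shape P.card Q.card S T := by
    refine ⟨fun k h => ?_, fun k l h => ?_⟩
    · have h3 : (eQ k).1.1.1 = (eQ k).1.1.2 := by rw [← hS k, ← hT k, h]
      have h4 := (eQ k).1.2
      exact hR.as _ _ h4 (by rw [h3] at h4 ⊢; exact h4)
    · rcases h with ⟨h3, h4⟩ | ⟨h3, h4⟩
      · apply eQ.injective
        apply Subtype.ext
        apply Subtype.ext
        apply Prod.ext
        · rw [← hS k, ← hS l, h3]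
        · rw [← hT k, ← hT l, h4]
      · exfalso
        have h5 : (eQ k).1.1.1 = (eQ l).1.1.2 := by rw [← hS k, ← hT l, h3]
        have h6 : (eQ k).1.1.2 = (eQ l).1.1.1 := by rw [← hT k, ← hS l, h4]
        have h7 := (eQ k).1.2
        rw [h5, h6] at h7
        exact hR.as _ _ (eQ l).1.2 h7
  have hcfg : CfgA p S T (fun i => s (g (Sum.inl (i, 0)))) (fun i => s (g (Sum.inl (i, 1))))
      (fun i => s (g (Sum.inl (i, 2)))) (fun k => s (g (Sum.inr (k, 0))))
      (fun k => s (g (Sum.inr (k, 1)))) := by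
    refine ⟨fun i => hG.tri _, fun i j hij => ?_, fun k => ?_⟩
    · have h3 := hR.ne (eP i).1 (eP j).1 fun h => hij (eP.injective (Subtype.ext h))
      rw [← hG.rep, ← hG.rep] at h3
      exact h3
    · have h3 := hG.qd (eQ k).1
      change QdA p (s (Sum.inl (Sum.inl ((eP (S k)).1, 0)))) (s (Sum.inl (Sum.inl ((eP (T k)).1, 0))))
        _ _
      rw [hS k, hT k]
      exact h3
  have hcf : cf (fun i => s (g (Sum.inl (i, 0)))) (fun i => s (g (Sum.inl (i, 1))))
      (fun i => s (g (Sum.inl (i, 2)))) (fun k => s (g (Sum.inr (k, 0))))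
      (fun k => s (g (Sum.inr (k, 1)))) = fun x => s (g x) := by
    funext x
    rcases x with ⟨i, j⟩ | ⟨k, j⟩
    · fin_cases j <;> rfl
    · fin_cases j <;> rfl
  refine hA.rel P.card Q.card S T hshape (fun x x' => M (g x, g x')) ⟨fun i => hMa.1 _,
    fun i j => hMa.2 _ _⟩ ⟨fun i => hM0.1 _, fun i => hM0.2.1 _, fun k => hM0.2.2 _⟩ ?_ _ _ _ _ _
    hcfg ?_
  · obtain ⟨⟨b, b'⟩, hbb⟩ := Finsupp.ne_iff.mp hne
    obtain ⟨⟨i, hi⟩, j, hj⟩ := hMg b b' hbb
    exact ⟨i, j, by rw [hi, hj]; exact hbb⟩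
  · rw [hcf]
    unfold blA
    rw [← bil_eq s M g hg hMg]
    exact hbil

end Pool.Agent.H596.FV
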